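import Mathlib

namespace Q97.Cos

/-- the places of `ℚ` -/
abbrev Pl : Type := Option Nat.Primes

/-- `x` is small of level `N` at the place `i`: `|x| < 1 / N` at the real place, `|x|_p ≤ |N|_p` at
`p` -/
def Small (N : ℕ) : Pl → ℚ → Prop
  | none, x => |x| * N < 1
  | some p, x => padicNorm p x ≤ padicNorm p (N : ℚ)

theorem fact (p : Nat.Primes) : Fact (p : ℕ).Prime := ⟨p.2⟩

attribute [local instance] fact

theorem small_zero (N : ℕ) (i : Pl) : Small N i 0 := by
  cases i with
  | none => simp [Small]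
  | some p => simp [Small, padicNorm.nonneg]

theorem small_neg {N : ℕ} {i : Pl} {x : ℚ} (h : Small N i x) : Small N i (-x) := by
  cases i with
  | none => simpa [Small] using h
  | some p => simpa [Small, padicNorm.neg] using h

theorem small_mono {N M : ℕ} (hd : N ∣ M) (hM : M ≠ 0) {i : Pl} {x : ℚ} (h : Small M i x) :
    Small N i x := by
  obtain ⟨k, rfl⟩ := hd
  cases i with
  | none =>
    have hk : 1 ≤ k := Nat.one_le_iff_ne_zero.2 (by rintro rfl; simp at hM)
    simp only [Small] at h ⊢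
    have h1 : (N : ℚ) ≤ ((N * k : ℕ) : ℚ) := by
      exact_mod_cast Nat.le_mul_of_pos_right N hk
    have := mul_le_mul_of_nonneg_left h1 (abs_nonneg x)
    linarith
  | some p =>
    simp only [Small] at h ⊢
    refine h.trans ?_
    push_cast
    rw [padicNorm.mul]
    have h1 : padicNorm p (k : ℚ) ≤ 1 := padicNorm.of_nat k
    have h2 := padicNorm.nonneg (p := p) (N : ℚ)
    nlinarith

theorem small_add {N : ℕ} {i : Pl} {x y : ℚ} (hx : Small (2 * N) i x) (hy : Small (2 * N) i y) :
    Small N i (x + y) := by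
  cases i with
  | none =>
    simp only [Small] at hx hy ⊢
    push_cast at hx hy
    have h1 := abs_add_le x y
    have h2 : (0 : ℚ) ≤ N := Nat.cast_nonneg N
    have := mul_le_mul_of_nonneg_right h1 h2
    nlinarith
  | some p =>
    simp only [Small] at hx hy ⊢
    have h0 : padicNorm p ((2 * N : ℕ) : ℚ) ≤ padicNorm p (N : ℚ) := by
      push_cast
      rw [padicNorm.mul]
      have h1 : padicNorm p (2 : ℚ) ≤ 1 := by exact_mod_cast padicNorm.of_nat (p := p) 2
      have h2 := padicNorm.nonneg (p := p) (N : ℚ)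
      nlinarith
    exact padicNorm.nonarchimedean.trans (max_le (hx.trans h0) (hy.trans h0))

theorem small_mul {N : ℕ} {i : Pl} {x y : ℚ} (hx : Small N i x) (hy : Small 1 i y) :
    Small N i (x * y) := by
  cases i with
  | none =>
    simp only [Small] at hx hy ⊢
    rw [Nat.cast_one, mul_one] at hy
    rw [abs_mul]
    have h1 := abs_nonneg x
    have h2 := abs_nonneg y
    have h3 : (0 : ℚ) ≤ |x| * N := by positivity
    nlinarith
  | some p =>
    simp only [Small] at hx hy ⊢
    rw [Nat.cast_one, padicNorm.one] at hy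
    rw [padicNorm.mul]
    have h1 := padicNorm.nonneg (p := p) x
    have h2 := padicNorm.nonneg (p := p) y
    nlinarith

theorem small_bdd (q : ℚ) : ∃ D : ℕ, D ≠ 0 ∧ ∀ (N : ℕ) (i : Pl) (x : ℚ),
    Small (D * N) i x → Small N i (q * x) := by
  refine ⟨q.den * (q.num.natAbs + 1), by simp, fun N i x h => ?_⟩
  cases i with
  | none =>
    simp only [Small] at h ⊢
    have h1 : |q| ≤ ((q.den * (q.num.natAbs + 1) : ℕ) : ℚ) := by
      have h2 : |q| * q.den = (q.num.natAbs : ℚ) := by
        have h3 : q * q.den = q.num := Rat.mul_den_eq_num q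
        have h4 : |q * q.den| = |(q.num : ℚ)| := by rw [h3]
        rw [abs_mul, Nat.abs_cast] at h4
        rw [h4, Nat.cast_natAbs]
        push_cast
        rfl
      have h5 : (1 : ℚ) ≤ q.den := by exact_mod_cast q.den_pos
      have h6 : |q| ≤ |q| * q.den := le_mul_of_one_le_right (abs_nonneg q) h5
      push_cast
      have h7 : (0 : ℚ) ≤ (q.num.natAbs : ℚ) := Nat.cast_nonneg _
      nlinarith
    rw [abs_mul]
    have h2 : (0 : ℚ) ≤ |x| * N := by positivity
    have := mul_le_mul_of_nonneg_right h1 h2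
    push_cast at h this
    nlinarith
  | some p =>
    simp only [Small] at h ⊢
    rw [padicNorm.mul]
    have h0 := padicNorm.nonneg (p := p) q
    have h1 : padicNorm p q * padicNorm p ((q.den * (q.num.natAbs + 1) : ℕ) : ℚ) ≤ 1 := by
      push_cast
      rw [padicNorm.mul, ← mul_assoc, ← padicNorm.mul, Rat.mul_den_eq_num]
      have h2 : padicNorm p (q.num : ℚ) ≤ 1 := padicNorm.of_int _
      have h3 : padicNorm p ((q.num.natAbs : ℚ) + 1) ≤ 1 := by
        exact_mod_cast padicNorm.of_nat (p := p) (q.num.natAbs + 1)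
      have h4 := padicNorm.nonneg (p := p) (q.num : ℚ)
      have h5 := padicNorm.nonneg (p := p) ((q.num.natAbs : ℚ) + 1)
      nlinarith
    calc padicNorm p q * padicNorm p x
        ≤ padicNorm p q * padicNorm p ((q.den * (q.num.natAbs + 1) * N : ℕ) : ℚ) :=
          mul_le_mul_of_nonneg_left h h0
      _ = (padicNorm p q * padicNorm p ((q.den * (q.num.natAbs + 1) : ℕ) : ℚ)) *
          padicNorm p (N : ℚ) := by
          rw [Nat.cast_mul (q.den * (q.num.natAbs + 1)) N, padicNorm.mul, mul_assoc]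
      _ ≤ 1 * padicNorm p (N : ℚ) :=
          mul_le_mul_of_nonneg_right h1 (padicNorm.nonneg _)
      _ = padicNorm p (N : ℚ) := one_mul _

theorem small_disc {x : ℚ} (h : ∀ i : Pl, Small 1 i x) : x = 0 := by
  have hden : x.den = 1 := by
    by_contra hne
    obtain ⟨p, hp, hpd⟩ := Nat.exists_prime_and_dvd hne
    have : Fact p.Prime := ⟨hp⟩
    have h1 := h (some ⟨p, hp⟩)
    simp only [Small] at h1
    rw [Nat.cast_one, padicNorm.one] at h1
    have h2 : x * x.den = x.num := Rat.mul_den_eq_num x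
    have h3 : padicNorm p (x * x.den) = padicNorm p (x.num : ℚ) := by rw [h2]
    rw [padicNorm.mul] at h3
    have h4 : padicNorm p (x.den : ℚ) < 1 := (padicNorm.nat_lt_one_iff x.den).2 hpd
    have h5 : padicNorm p (x.num : ℚ) = 1 := by
      rw [padicNorm.int_eq_one_iff]
      intro h6
      have h7 : p ∣ x.num.natAbs := Int.natCast_dvd.1 h6
      have h8 := Nat.dvd_gcd h7 hpd
      rw [x.reduced] at h8
      exact hp.one_lt.ne' (Nat.dvd_one.1 h8)
    rw [h5] at h3
    have h9 := padicNorm.nonneg (p := p) (x.den : ℚ)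
    have h10 := padicNorm.nonneg (p := p) x
    change padicNorm p x ≤ 1 at h1
    nlinarith
  have h0 := h none
  simp only [Small] at h0
  rw [Nat.cast_one, mul_one] at h0
  have h1 : x = (x.num : ℚ) := by
    conv_lhs => rw [← Rat.num_div_den x, hden]
    simp
  rw [h1] at h0 ⊢
  have h2 : |x.num| < 1 := by exact_mod_cast h0
  have h3 : x.num = 0 := Int.abs_lt_one_iff.1 h2
  rw [h3]
  simp

theorem small_haus {i : Pl} {x : ℚ} (h : ∀ N : ℕ, N ≠ 0 → Small N i x) : x = 0 := by
  by_contra hx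
  cases i with
  | none =>
    obtain ⟨n, hn⟩ := exists_nat_gt (1 / |x|)
    have hxp : 0 < |x| := abs_pos.2 hx
    have hn0 : n ≠ 0 := by
      rintro rfl
      have : 0 < 1 / |x| := by positivity
      simp at hn
      linarith
    have h1 := h n hn0
    simp only [Small] at h1
    rw [div_lt_iff₀ hxp] at hn
    linarith
  | some p =>
    obtain ⟨z, hz⟩ := padicNorm.values_discrete (p := p) hx
    have hp1 : (1 : ℚ) < p := by exact_mod_cast p.2.one_lt
    have h1 := h ((p : ℕ) ^ (z.toNat + 1)) (pow_ne_zero _ p.2.ne_zero)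
    simp only [Small] at h1
    rw [hz] at h1
    have h2 : padicNorm p (((p : ℕ) ^ (z.toNat + 1) : ℕ) : ℚ) ≤ (p : ℚ) ^ (-((z.toNat + 1 : ℕ) : ℤ)) := by
      have := (padicNorm.dvd_iff_norm_le (p := p) (n := z.toNat + 1)
        (z := (((p : ℕ) ^ (z.toNat + 1) : ℕ) : ℤ))).1 (dvd_refl _)
      exact_mod_cast this
    have h3 := h1.trans h2
    have h4 := (zpow_le_zpow_iff_right₀ hp1).1 h3
    have h5 := Int.self_le_toNat z
    push_cast at h4
    linarith

/-- approximation at `p` with denominators at `p` only -/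
theorem approx_p (p : Nat.Primes) (a : ℚ) {N : ℕ} (hN : N ≠ 0) :
    ∃ q : ℚ, padicNorm p (q - a) ≤ padicNorm p (N : ℚ) ∧
      ∀ l : Nat.Primes, l ≠ p → padicNorm l q ≤ padicNorm l (N : ℚ) := by
  obtain ⟨f, N', hN', hNe⟩ := Nat.exists_eq_pow_mul_and_not_dvd hN p p.2.ne_one
  obtain ⟨e, w, hw, hde⟩ := Nat.exists_eq_pow_mul_and_not_dvd a.den_nz p p.2.ne_one
  have hcop : IsCoprime ((N' * w : ℕ) : ℤ) (((p : ℕ) ^ (e + f) : ℕ) : ℤ) := by
    rw [Nat.isCoprime_iff_coprime]
    refine Nat.Coprime.pow_right _ ?_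
    refine Nat.Coprime.symm ((Nat.Prime.coprime_iff_not_dvd p.2).2 ?_)
    intro hd
    rcases (Nat.Prime.dvd_mul p.2).1 hd with h | h
    · exact hN' h
    · exact hw h
  obtain ⟨c, b, hcb⟩ := hcop
  have hp0 : (p : ℚ) ≠ 0 := by exact_mod_cast p.2.ne_zero
  have hw0 : (w : ℚ) ≠ 0 := by
    rintro h
    have h1 : w = 0 := by exact_mod_cast h
    exact hw (h1 ▸ dvd_zero _)
  have ha : a = (a.num : ℚ) / ((p : ℚ) ^ e * w) := by
    conv_lhs => rw [← Rat.num_div_den a, hde]
    push_cast
    rfl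
  have hcb' : (c : ℚ) * (N' * w) = 1 - b * (p : ℚ) ^ (e + f) := by
    have : (c : ℚ) * ((N' : ℚ) * w) + b * ((p : ℚ) ^ (e + f)) = 1 := by exact_mod_cast hcb
    linarith
  refine ⟨(N' : ℚ) * (a.num * c) / (p : ℚ) ^ e, ?_, ?_⟩
  · have h1 : (N' : ℚ) * (a.num * c) / (p : ℚ) ^ e - a = -(a.num * b * (p : ℚ) ^ f) / w := by
      conv_lhs => rw [ha]
      have h2 : (N' : ℚ) * (a.num * c) / (p : ℚ) ^ e - (a.num : ℚ) / ((p : ℚ) ^ e * w) =
          a.num * ((c : ℚ) * (N' * w) - 1) / ((p : ℚ) ^ e * w) := by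
        field_simp
      have h3 : ((a.num : ℚ) / ((p : ℚ) ^ e * w)).num = a.num := by rw [← ha]
      rw [h3, h2, hcb', pow_add]
      field_simp
      ring
    rw [h1, padicNorm.div, padicNorm.neg, padicNorm.mul, padicNorm.mul]
    have hwn : padicNorm p (w : ℚ) = 1 := (padicNorm.nat_eq_one_iff w).2 hw
    have hN'n : padicNorm p (N' : ℚ) = 1 := (padicNorm.nat_eq_one_iff N').2 hN'
    rw [hwn, div_one, hNe]
    push_cast
    rw [padicNorm.mul, hN'n, mul_one]
    have h4 : padicNorm p (a.num : ℚ) ≤ 1 := padicNorm.of_int _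
    have h5 : padicNorm p (b : ℚ) ≤ 1 := padicNorm.of_int _
    have h6 := padicNorm.nonneg (p := p) (a.num : ℚ)
    have h7 := padicNorm.nonneg (p := p) (b : ℚ)
    have h8 := padicNorm.nonneg (p := p) ((p : ℚ) ^ f)
    have h9 : padicNorm p (a.num : ℚ) * padicNorm p (b : ℚ) ≤ 1 := by nlinarith
    nlinarith
  · intro l hl
    have hlp : padicNorm l (p : ℚ) = 1 := by
      rw [padicNorm.nat_eq_one_iff]
      intro hd
      have := (Nat.prime_dvd_prime_iff_eq l.2 p.2).1 hd
      exact hl (Subtype.ext this)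
    have hpow : ∀ k : ℕ, padicNorm l ((p : ℚ) ^ k) = 1 := by
      intro k
      induction k with
      | zero => simp
      | succ k ih => rw [pow_succ, padicNorm.mul, ih, hlp, one_mul]
    rw [padicNorm.div, hpow, div_one, hNe]
    push_cast
    rw [padicNorm.mul, padicNorm.mul, padicNorm.mul, hpow, one_mul]
    have h4 : padicNorm l (a.num : ℚ) ≤ 1 := padicNorm.of_int _
    have h5 : padicNorm l (c : ℚ) ≤ 1 := padicNorm.of_int _
    have h6 := padicNorm.nonneg (p := l) (a.num : ℚ)
    have h7 := padicNorm.nonneg (p := l) (c : ℚ)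
    have h8 := padicNorm.nonneg (p := l) (N' : ℚ)
    have h9 : padicNorm l (a.num : ℚ) * padicNorm l (c : ℚ) ≤ 1 := by nlinarith
    nlinarith

/-- approximation at the real place with denominators at `r` only -/
theorem approx_inf (r : Nat.Primes) (b : ℚ) {N : ℕ} (hN : N ≠ 0) :
    ∃ z : ℚ, |b - z| * N < 1 ∧ ∀ l : Nat.Primes, l ≠ r → padicNorm l z ≤ padicNorm l (N : ℚ) := by
  have hr1 : (1 : ℚ) < r := by exact_mod_cast r.2.one_lt
  have hr0 : (0 : ℚ) < r := by linarith
  obtain ⟨s, hs⟩ := pow_unbounded_of_one_lt ((N : ℚ) * N) hr1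
  have hN0 : (0 : ℚ) < N := by exact_mod_cast Nat.pos_of_ne_zero hN
  have hrs : (0 : ℚ) < (r : ℚ) ^ s := by positivity
  refine ⟨N * (⌊b * (r : ℚ) ^ s / N⌋ : ℤ) / (r : ℚ) ^ s, ?_, ?_⟩
  · set t := b * (r : ℚ) ^ s / N with ht
    have hb : b = N * t / (r : ℚ) ^ s := by rw [ht]; field_simp
    have h1 : b - N * (⌊t⌋ : ℤ) / (r : ℚ) ^ s = N * (t - ⌊t⌋) / (r : ℚ) ^ s := by
      conv_lhs => rw [hb]
      field_simp
    have h2 : 0 ≤ t - ⌊t⌋ := Int.fract_nonneg t
    have h3 : t - ⌊t⌋ < 1 := Int.fract_lt_one t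
    rw [h1, abs_of_nonneg (by positivity), div_mul_eq_mul_div, div_lt_one hrs]
    nlinarith
  · intro l hl
    have hlp : padicNorm l (r : ℚ) = 1 := by
      rw [padicNorm.nat_eq_one_iff]
      intro hd
      have := (Nat.prime_dvd_prime_iff_eq l.2 r.2).1 hd
      exact hl (Subtype.ext this)
    have hpow : ∀ k : ℕ, padicNorm l ((r : ℚ) ^ k) = 1 := by
      intro k
      induction k with
      | zero => simp
      | succ k ih => rw [pow_succ, padicNorm.mul, ih, hlp, one_mul]
    rw [padicNorm.div, hpow, div_one, padicNorm.mul]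
    have h4 : padicNorm l ((⌊b * (r : ℚ) ^ s / N⌋ : ℤ) : ℚ) ≤ 1 := padicNorm.of_int _
    have h8 := padicNorm.nonneg (p := l) (N : ℚ)
    have h9 := padicNorm.nonneg (p := l) ((⌊b * (r : ℚ) ^ s / N⌋ : ℤ) : ℚ)
    nlinarith

theorem approx {i₀ j : Pl} (hij : i₀ ≠ j) (a : ℚ) {N : ℕ} (hN : N ≠ 0) :
    ∃ q : ℚ, Small N i₀ (q - a) ∧ ∀ i : Pl, i ≠ i₀ → i ≠ j → Small N i q := by
  cases i₀ with
  | none =>
    cases j with
    | none => exact absurd rfl hij
    | some r =>
      obtain ⟨z, hz1, hz2⟩ := approx_inf r a hN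
      refine ⟨z, ?_, ?_⟩
      · simp only [Small]
        rw [abs_sub_comm]
        exact hz1
      · intro i h1 h2
        cases i with
        | none => exact absurd rfl h1
        | some l => exact hz2 l (fun h => h2 (by rw [h]))
  | some p =>
    obtain ⟨q, hq1, hq2⟩ := approx_p p a hN
    cases j with
    | none =>
      refine ⟨q, hq1, ?_⟩
      intro i h1 h2
      cases i with
      | none => exact absurd rfl h2
      | some l => exact hq2 l (fun h => h1 (by rw [h]))
    | some r =>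
      have hpr : p ≠ r := fun h => hij (by rw [h])
      obtain ⟨z, hz1, hz2⟩ := approx_inf r q hN
      refine ⟨q - z, ?_, ?_⟩
      · simp only [Small]
        have h1 : q - z - a = (q - a) - z := by ring
        rw [h1]
        exact padicNorm.sub.trans (max_le hq1 (hz2 p hpr))
      · intro i h1 h2
        cases i with
        | none => exact hz1
        | some l =>
          exact padicNorm.sub.trans (max_le (hq2 l (fun h => h1 (by rw [h])))
            (hz2 l (fun h => h2 (by rw [h]))))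

end Q97.Cos
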