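import Pool.Agent.Q97.Cos.Arith

namespace Q97.Cos

open Matrix

attribute [local instance] fact

abbrev L : Type := Matrix.SpecialLinearGroup (Fin 2) ℚ

/-- the simple group `PSL(2, ℚ)` -/
abbrev S : Type := Matrix.ProjectiveSpecialLinearGroup (Fin 2) ℚ

/-- the projection `SL(2, ℚ) → PSL(2, ℚ)` -/
abbrev pr : L →* S := QuotientGroup.mk' _

def WL (N : ℕ) (i : Pl) : Set L :=
  {g | ∀ r c, Small N i ((g : Matrix (Fin 2) (Fin 2) ℚ) r c -
    (1 : Matrix (Fin 2) (Fin 2) ℚ) r c)}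

def W (N : ℕ) (i : Pl) : Set S := pr '' WL N i

theorem WL_one (N : ℕ) (i : Pl) : (1 : L) ∈ WL N i := by
  intro r c
  have : ((1 : L) : Matrix (Fin 2) (Fin 2) ℚ) r c - (1 : Matrix (Fin 2) (Fin 2) ℚ) r c = 0 := by
    simp
  rw [this]
  exact small_zero N i

theorem WL_mono {N M : ℕ} (hd : N ∣ M) (hM : M ≠ 0) {i : Pl} {g : L} (h : g ∈ WL M i) :
    g ∈ WL N i := fun r c => small_mono hd hM (h r c)

theorem WL_mul {N : ℕ} (hN : N ≠ 0) {i : Pl} {g h : L} (hg : g ∈ WL (4 * N) i)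
    (hh : h ∈ WL (4 * N) i) : g * h ∈ WL N i := by
  intro r c
  have h4 : 4 * N = 2 * (2 * N) := by ring
  set X : Matrix (Fin 2) (Fin 2) ℚ := (g : Matrix (Fin 2) (Fin 2) ℚ) - 1 with hX
  set Y : Matrix (Fin 2) (Fin 2) ℚ := (h : Matrix (Fin 2) (Fin 2) ℚ) - 1 with hY
  have hg' : ∀ r c, Small (4 * N) i (X r c) := fun r c => hg r c
  have hh' : ∀ r c, Small (4 * N) i (Y r c) := fun r c => hh r c
  have hh1 : ∀ r c, Small 1 i (Y r c) := fun r c =>
    small_mono (one_dvd _) (by positivity) (hh' r c)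
  have e : ((g * h : L) : Matrix (Fin 2) (Fin 2) ℚ) r c - (1 : Matrix (Fin 2) (Fin 2) ℚ) r c =
      (X r c + Y r c) + (X r 0 * Y 0 c + X r 1 * Y 1 c) := by
    have e1 : ((g * h : L) : Matrix (Fin 2) (Fin 2) ℚ) = 1 + X + Y + X * Y := by
      rw [Matrix.SpecialLinearGroup.coe_mul, hX, hY]
      noncomm_ring
    rw [e1]
    simp only [Matrix.add_apply, Matrix.mul_apply, Fin.sum_univ_two]
    ring
  rw [e]
  refine small_add (small_add ?_ ?_) (small_add ?_ ?_)
  · rw [← h4]; exact hg' r c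
  · rw [← h4]; exact hh' r c
  · rw [← h4]; exact small_mul (hg' r 0) (hh1 0 c)
  · rw [← h4]; exact small_mul (hg' r 1) (hh1 1 c)

theorem WL_inv {N : ℕ} {i : Pl} {g : L} (hg : g ∈ WL N i) : g⁻¹ ∈ WL N i := by
  intro r c
  rw [Matrix.SpecialLinearGroup.SL2_inv_expl]
  fin_cases r <;> fin_cases c
  · simpa using hg 1 1
  · simpa using small_neg (hg 0 1)
  · simpa using small_neg (hg 1 0)
  · simpa using hg 0 0

theorem small_bdd_fam {K : Type} [Fintype K] (q : K → ℚ) : ∃ D : ℕ, D ≠ 0 ∧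
    ∀ (k : K) (N : ℕ) (i : Pl) (x : ℚ), N ≠ 0 → Small (D * N) i x → Small N i (q k * x) := by
  choose D hD hq using fun k => small_bdd (q k)
  refine ⟨∏ k, D k, Finset.prod_ne_zero_iff.2 fun k _ => hD k, fun k N i x hN h => ?_⟩
  refine hq k N i x (small_mono (Nat.mul_dvd_mul_right ?_ N) ?_ h)
  · exact Finset.dvd_prod_of_mem D (Finset.mem_univ k)
  · exact mul_ne_zero (Finset.prod_ne_zero_iff.2 fun k _ => hD k) hN

theorem WL_conj (s : L) : ∃ D : ℕ, D ≠ 0 ∧ ∀ (N : ℕ) (i : Pl) (g : L), N ≠ 0 →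
    g ∈ WL (D * N) i → s * g * s⁻¹ ∈ WL N i := by
  obtain ⟨D, hD, hq⟩ := small_bdd_fam (fun k : (Fin 2 × Fin 2) × (Fin 2 × Fin 2) =>
    (s : Matrix (Fin 2) (Fin 2) ℚ) k.1.1 k.1.2 * ((s⁻¹ : L) : Matrix (Fin 2) (Fin 2) ℚ) k.2.1 k.2.2)
  refine ⟨D * 4, by positivity, fun N i g hN hg r c => ?_⟩
  set X : Matrix (Fin 2) (Fin 2) ℚ := (g : Matrix (Fin 2) (Fin 2) ℚ) - 1 with hX
  set T : Matrix (Fin 2) (Fin 2) ℚ := (s : Matrix (Fin 2) (Fin 2) ℚ) with hT
  set T' : Matrix (Fin 2) (Fin 2) ℚ := ((s⁻¹ : L) : Matrix (Fin 2) (Fin 2) ℚ) with hT'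
  have hTT : T * T' = 1 := by
    rw [hT, hT', ← Matrix.SpecialLinearGroup.coe_mul, mul_inv_cancel,
      Matrix.SpecialLinearGroup.coe_one]
  have e : ((s * g * s⁻¹ : L) : Matrix (Fin 2) (Fin 2) ℚ) r c - (1 : Matrix (Fin 2) (Fin 2) ℚ) r c =
      ((T r 0 * T' 0 c) * X 0 0 + (T r 1 * T' 0 c) * X 1 0) +
      ((T r 0 * T' 1 c) * X 0 1 + (T r 1 * T' 1 c) * X 1 1) := by
    have e1 : ((s * g * s⁻¹ : L) : Matrix (Fin 2) (Fin 2) ℚ) = 1 + T * X * T' := by
      rw [Matrix.SpecialLinearGroup.coe_mul, Matrix.SpecialLinearGroup.coe_mul, ← hT, ← hT', hX,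
        Matrix.mul_sub, Matrix.sub_mul, Matrix.mul_one, hTT]
      abel
    rw [e1]
    simp only [Matrix.add_apply, Matrix.mul_apply, Fin.sum_univ_two]
    ring
  have hN4 : 4 * N ≠ 0 := by positivity
  have hX' : ∀ a b, Small (D * (4 * N)) i (X a b) := by
    intro a b
    have := hg a b
    rw [mul_assoc] at this
    exact this
  have h4 : 4 * N = 2 * (2 * N) := by ring
  rw [e]
  refine small_add (small_add ?_ ?_) (small_add ?_ ?_)
  · rw [← h4]; exact hq ((r, 0), (0, c)) _ i _ hN4 (hX' 0 0)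
  · rw [← h4]; exact hq ((r, 1), (0, c)) _ i _ hN4 (hX' 1 0)
  · rw [← h4]; exact hq ((r, 0), (1, c)) _ i _ hN4 (hX' 0 1)
  · rw [← h4]; exact hq ((r, 1), (1, c)) _ i _ hN4 (hX' 1 1)

theorem W_one (N : ℕ) (i : Pl) : (1 : S) ∈ W N i := ⟨1, WL_one N i, map_one _⟩

theorem W_mono {N M : ℕ} (hd : N ∣ M) (hM : M ≠ 0) {i : Pl} {s : S} (h : s ∈ W M i) :
    s ∈ W N i := by
  obtain ⟨g, hg, rfl⟩ := h
  exact ⟨g, WL_mono hd hM hg, rfl⟩

theorem W_mul {N : ℕ} (hN : N ≠ 0) {i : Pl} {s t : S} (hs : s ∈ W (4 * N) i)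
    (ht : t ∈ W (4 * N) i) : s * t ∈ W N i := by
  obtain ⟨g, hg, rfl⟩ := hs
  obtain ⟨h, hh, rfl⟩ := ht
  exact ⟨g * h, WL_mul hN hg hh, map_mul _ _ _⟩

theorem W_inv {N : ℕ} {i : Pl} {s : S} (hs : s ∈ W N i) : s⁻¹ ∈ W N i := by
  obtain ⟨g, hg, rfl⟩ := hs
  exact ⟨g⁻¹, WL_inv hg, map_inv _ _⟩

theorem W_conj (s : S) : ∃ D : ℕ, D ≠ 0 ∧ ∀ (N : ℕ) (i : Pl) (t : S), N ≠ 0 →
    t ∈ W (D * N) i → s * t * s⁻¹ ∈ W N i := by
  obtain ⟨s, rfl⟩ := QuotientGroup.mk'_surjective _ s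
  obtain ⟨D, hD, h⟩ := WL_conj s
  refine ⟨D, hD, fun N i t hN ht => ?_⟩
  obtain ⟨g, hg, rfl⟩ := ht
  exact ⟨s * g * s⁻¹, h N i g hN hg, by simp⟩

theorem lift_eq {g h : L} (e : pr g = pr h) :
    g = h ∨ (g : Matrix (Fin 2) (Fin 2) ℚ) = -(h : Matrix (Fin 2) (Fin 2) ℚ) := by
  have e1 : h⁻¹ * g ∈ Subgroup.center L := QuotientGroup.eq.1 e.symm
  rw [Matrix.SpecialLinearGroup.mem_center_iff] at e1
  obtain ⟨r, hr, hr2⟩ := e1
  rw [Fintype.card_fin] at hr
  have e2 : (g : Matrix (Fin 2) (Fin 2) ℚ) = r • (h : Matrix (Fin 2) (Fin 2) ℚ) := by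
    have : g = h * (h⁻¹ * g) := by group
    rw [this, Matrix.SpecialLinearGroup.coe_mul, ← hr2, Matrix.scalar_apply,
      ← Matrix.smul_one_eq_diagonal, Matrix.mul_smul, Matrix.mul_one]
  have h0 : (r - 1) * (r + 1) = 0 := by linear_combination hr
  rcases mul_eq_zero.1 h0 with h1 | h1
  · left
    have hr1 : r = 1 := by linarith
    rw [hr1, one_smul] at e2
    exact Subtype.ext e2
  · right
    have hr1 : r = -1 := by linarith
    rw [hr1, neg_smul, one_smul] at e2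
    exact e2

theorem W_disc {s : S} (h : ∀ i, s ∈ W 1 i) : s = 1 := by
  obtain ⟨g, hg, rfl⟩ := h none
  have hall : ∀ i, g ∈ WL 1 i := by
    intro i
    cases i with
    | none => exact hg
    | some p =>
      obtain ⟨g', hg', e⟩ := h (some p)
      have key : ∀ x : ℚ, padicNorm p x ≤ 1 → ∀ y : ℚ, padicNorm p y ≤ 1 →
          Small 1 (some p) (x - y) := by
        intro x hx y hy
        simp only [Small]
        rw [Nat.cast_one, padicNorm.one]
        exact padicNorm.sub.trans (max_le hx hy)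
      have h1 : ∀ r c, padicNorm p ((1 : Matrix (Fin 2) (Fin 2) ℚ) r c) ≤ 1 := by
        intro r c
        rw [Matrix.one_apply]
        split_ifs
        · simp
        · simp
      have h2 : ∀ r c, padicNorm p ((g' : Matrix (Fin 2) (Fin 2) ℚ) r c) ≤ 1 := by
        intro r c
        have h3 := hg' r c
        simp only [Small] at h3
        rw [Nat.cast_one, padicNorm.one] at h3
        have h4 : (g' : Matrix (Fin 2) (Fin 2) ℚ) r c = ((g' : Matrix (Fin 2) (Fin 2) ℚ) r c -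
          (1 : Matrix (Fin 2) (Fin 2) ℚ) r c) + (1 : Matrix (Fin 2) (Fin 2) ℚ) r c := by ring
        rw [h4]
        exact padicNorm.nonarchimedean.trans (max_le h3 (h1 r c))
      rcases lift_eq e.symm with h3 | h3
      · rw [h3]; exact hg'
      · intro r c
        refine key _ ?_ _ (h1 r c)
        rw [h3, Matrix.neg_apply, padicNorm.neg]
        exact h2 r c
  have hg1 : g = 1 := by
    ext r c
    have h1 := small_disc (fun i => hall i r c)
    rw [Matrix.SpecialLinearGroup.coe_one]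
    linarith
  rw [hg1, map_one]

theorem WL_haus {g : L} {i : Pl} (h : ∀ N : ℕ, N ≠ 0 → g ∈ WL N i) : g = 1 := by
  ext r c
  have h1 := small_haus (fun N hN => h N hN r c)
  rw [Matrix.SpecialLinearGroup.coe_one]
  linarith

theorem W_haus {s : S} {i : Pl} (h : ∀ N : ℕ, N ≠ 0 → s ∈ W N i) : s = 1 := by
  obtain ⟨g, rfl⟩ := QuotientGroup.mk'_surjective _ s
  by_cases hg : ∀ N : ℕ, N ≠ 0 → g ∈ WL N i
  · rw [WL_haus hg, map_one]
  · push Not at hg
    obtain ⟨N₁, hN₁, hgN⟩ := hg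
    obtain ⟨g', hg', e⟩ := h N₁ hN₁
    have hne : g' ≠ g := fun h0 => hgN (h0 ▸ hg')
    have hneg := (lift_eq e).resolve_left hne
    have hall : ∀ N : ℕ, N ≠ 0 → g' ∈ WL N i := by
      intro N hN
      obtain ⟨g'', hg'', e'⟩ := h (N * N₁) (mul_ne_zero hN hN₁)
      have hne' : g'' ≠ g := fun h0 => hgN (h0 ▸ WL_mono (dvd_mul_left _ _)
        (mul_ne_zero hN hN₁) hg'')
      have hneg' := (lift_eq e').resolve_left hne'
      have : g' = g'' := Subtype.ext (by rw [hneg, hneg'])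
      rw [this]
      exact WL_mono (dvd_mul_right _ _) (mul_ne_zero hN hN₁) hg''
    rw [← e, WL_haus hall, map_one]

theorem transv_mem {N : ℕ} {i : Pl} {a b : Fin 2} (hab : a ≠ b) {x : ℚ} (hx : Small N i x) :
    Matrix.SpecialLinearGroup.transvection hab x ∈ WL N i := by
  intro r c
  rw [Matrix.SpecialLinearGroup.transvection_coe]
  have : (1 + Matrix.single a b x) r c - (1 : Matrix (Fin 2) (Fin 2) ℚ) r c =
      if a = r ∧ b = c then x else 0 := by
    rw [Matrix.add_apply, Matrix.single_apply]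
    ring
  rw [this]
  split_ifs
  · exact hx
  · exact small_zero N i

theorem W_approx {i₀ j : Pl} (hij : i₀ ≠ j) {a b : Fin 2} (hab : a ≠ b) (x : ℚ) {N : ℕ}
    (hN : N ≠ 0) : ∃ q : S,
      (pr (Matrix.SpecialLinearGroup.transvection hab x))⁻¹ * q ∈ W N i₀ ∧
      ∀ i : Pl, i ≠ i₀ → i ≠ j → q ∈ W N i := by
  obtain ⟨q, hq1, hq2⟩ := approx hij x hN
  refine ⟨pr (Matrix.SpecialLinearGroup.transvection hab q), ?_, ?_⟩
  · refine ⟨Matrix.SpecialLinearGroup.transvection hab (q - x), transv_mem hab hq1, ?_⟩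
    rw [← map_inv, ← map_mul]
    congr 1
    ext r c
    rw [Matrix.SpecialLinearGroup.transvection_inv]
    fin_cases a <;> fin_cases b <;> first | exact absurd rfl hab | skip
    all_goals
      fin_cases r <;> fin_cases c <;>
      (simp [Matrix.SpecialLinearGroup.transvection_coe, mul_add, add_mul]; try ring)
  · intro i h1 h2
    exact ⟨_, transv_mem hab (hq2 i h1 h2), rfl⟩

instance : IsSimpleGroup S :=
  Matrix.ProjectiveSpecialLinearGroup.rank_two_simple' ⟨2, by norm_num, by norm_num⟩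

theorem center_S : Subgroup.center S = ⊥ := by
  rcases IsSimpleGroup.eq_bot_or_eq_top_of_normal (Subgroup.center S) inferInstance with h | h
  · exact h
  · exfalso
    have h1 : commutator S = ⊤ :=
      SL2Simple.PSL_commutator_eq_top ⟨2, by norm_num, by norm_num⟩
    have h2 : commutator S = ⊥ := by
      rw [commutator_def, Subgroup.commutator_eq_bot_iff_le_centralizer, Subgroup.coe_top,
        Subgroup.centralizer_univ, h]
    rw [h1] at h2
    exact bot_ne_top h2.symm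

theorem exists_noncomm {a : S} (ha : a ≠ 1) : ∃ b : S, a * b * a⁻¹ * b⁻¹ ≠ 1 := by
  by_contra hcon
  push Not at hcon
  apply ha
  have : a ∈ Subgroup.center S := by
    rw [Subgroup.mem_center_iff]
    intro b
    have := hcon b
    have h2 : a * b * a⁻¹ = b := by
      rw [mul_inv_eq_one] at this
      exact this
    calc b * a = a * b * a⁻¹ * a := by rw [h2]
      _ = a * b := by group
  rw [center_S] at this
  exact Subgroup.mem_bot.1 this

end Q97.Cos
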