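import Pool.Agent.Q97.Cos.Top

namespace Q97.Cos

open Pointwise Topology

/-- a constant family -/
def diag (q : S) : G := ⟨fun _ => q, q, by simp⟩

theorem diag_mem (q : S) : diag q ∈ H := fun _ _ => rfl

theorem single_mul (i : Pl) (s t : S) : single i (s * t) = single i s * single i t := by
  refine Subtype.ext (funext fun j => ?_)
  change (single i (s * t) : Pl → S) j = (single i s : Pl → S) j * (single i t : Pl → S) j
  by_cases h : j = i
  · subst h
    rw [single_self, single_self, single_self]
  · rw [single_ne h, single_ne h, single_ne h, one_mul]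

/-- strong approximation: a closed subgroup that contains the diagonal and a factor is the group -/
theorem dense {K : Subgroup G} (hK : IsClosed (K : Set G)) (hH : H ≤ K) {j : Pl} (hM : M j ≤ K) :
    K = ⊤ := by
  have h1 : ∀ (i₀ : Pl), i₀ ≠ j → ∀ (a b : Fin 2) (hab : a ≠ b) (x : ℚ),
      single i₀ (pr (Matrix.SpecialLinearGroup.transvection hab x)) ∈ K := by
    intro i₀ hij a b hab x
    change _ ∈ (K : Set G)
    rw [← hK.closure_eq, mem_closure_iff']
    intro N hN
    obtain ⟨q, hq1, hq2⟩ := W_approx hij hab x hN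
    refine ⟨diag q * single j q⁻¹, mul_mem (hH (diag_mem q)) (hM (single_mem j _)), ?_⟩
    intro i
    change ((single i₀ (pr (Matrix.SpecialLinearGroup.transvection hab x)) : Pl → S) i)⁻¹ *
      (q * (single j q⁻¹ : Pl → S) i) ∈ W N i
    by_cases hi : i = i₀
    · subst hi
      rw [single_self, single_ne hij, mul_one]
      exact hq1
    · rw [single_ne hi, inv_one, one_mul]
      by_cases hj : i = j
      · subst hj
        rw [single_self, mul_inv_cancel]
        exact W_one N i
      · rw [single_ne hj, mul_one]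
        exact hq2 i hi hj
  have h2 : ∀ (i : Pl) (s : S), single i s ∈ K := by
    intro i s
    by_cases hij : i = j
    · subst hij
      exact hM (single_mem i s)
    · obtain ⟨g, rfl⟩ := QuotientGroup.mk'_surjective _ s
      refine Matrix.SL2.transvection_induction
        (fun g => single i (pr g) ∈ K) (fun a b hab c => h1 i hij a b hab c) ?_ g
      intro A B hA hB
      have : single i (pr (A * B)) = single i (pr A) * single i (pr B) := by
        rw [map_mul, single_mul]
      change single i (pr (A * B)) ∈ K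
      rw [this]
      exact mul_mem hA hB
  rw [eq_top_iff]
  intro g _
  obtain ⟨s, hs⟩ := g.2
  have h3 : ∀ (F : Finset Pl) (g : G), (∀ i, i ∉ F → (g : Pl → S) i = s) → g ∈ K := by
    intro F
    induction F using Finset.induction_on with
    | empty =>
      intro g hg
      refine hH fun i j => ?_
      rw [hg i (Finset.notMem_empty i), hg j (Finset.notMem_empty j)]
    | insert i F hi ih =>
      intro g hg
      have h4 : single i (s * ((g : Pl → S) i)⁻¹) * g ∈ K := by
        refine ih _ fun k hk => ?_
        change (single i (s * ((g : Pl → S) i)⁻¹) : Pl → S) k * (g : Pl → S) k = s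
        by_cases hki : k = i
        · subst hki
          rw [single_self]
          group
        · rw [single_ne hki, one_mul]
          exact hg k (by simp [hki, hk])
      have h5 : g = (single i (s * ((g : Pl → S) i)⁻¹))⁻¹ *
          (single i (s * ((g : Pl → S) i)⁻¹) * g) := by group
      rw [h5]
      exact mul_mem (inv_mem (h2 _ _)) h4
  refine h3 hs.toFinset g fun i hi => ?_
  by_contra hne
  exact hi (hs.mem_toFinset.2 hne)

/-- the elements that normalise a closed subgroup form a closed subgroup -/
theorem normalizer_closed {N : Subgroup G} (hN : IsClosed (N : Set G)) :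
    IsClosed (Subgroup.normalizer (N : Set G) : Set G) := by
  have : (Subgroup.normalizer (N : Set G) : Set G) =
      ⋂ n ∈ (N : Set G), ({g | g * n * g⁻¹ ∈ (N : Set G)} ∩ {g | g⁻¹ * n * g ∈ (N : Set G)}) := by
    ext g
    simp only [Set.mem_iInter, Set.mem_inter_iff, SetLike.mem_coe]
    rw [Subgroup.mem_normalizer_iff]
    constructor
    · intro h n hn
      refine ⟨(h n).1 hn, (h _).2 ?_⟩
      have : g * (g⁻¹ * n * g) * g⁻¹ = n := by group
      change g * (g⁻¹ * n * g) * g⁻¹ ∈ N
      rw [this]
      exact hn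
    · intro h n
      refine ⟨fun hn => (h n hn).1, fun hn => ?_⟩
      have h1 := (h _ hn).2
      have : g⁻¹ * (g * n * g⁻¹) * g = n := by group
      change g⁻¹ * (g * n * g⁻¹) * g ∈ N at h1
      rwa [this] at h1
  rw [this]
  refine isClosed_biInter fun n _ => IsClosed.inter ?_ ?_
  · exact hN.preimage (by fun_prop)
  · exact hN.preimage (by fun_prop)

theorem maximal {K : Subgroup G} (hK : IsClosed (K : Set G)) (hH : H ≤ K) (hne : K ≠ H) :
    K = ⊤ := by
  obtain ⟨k, hk, hkH⟩ : ∃ k ∈ K, k ∉ H := by
    by_contra hcon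
    push Not at hcon
    exact hne (le_antisymm (fun k hk => hcon k hk) hH)
  set k' : G := (diag ((k : Pl → S) none))⁻¹ * k with hk'
  have hk'K : k' ∈ K := mul_mem (inv_mem (hH (diag_mem _))) hk
  have hk'C : k' ∈ C none := by
    change ((k : Pl → S) none)⁻¹ * (k : Pl → S) none = 1
    group
  obtain ⟨i, hi⟩ : ∃ i, (k' : Pl → S) i ≠ 1 := by
    by_contra hcon
    push Not at hcon
    apply hkH
    have h1 : ∀ i, (k : Pl → S) i = (k : Pl → S) none := by
      intro i
      have h2 : ((k : Pl → S) none)⁻¹ * (k : Pl → S) i = 1 := hcon i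
      exact (inv_mul_eq_one.1 h2).symm
    intro i j
    rw [h1 i, h1 j]
  set N : Subgroup G := K ⊓ C none with hN
  have hNc : IsClosed (N : Set G) := by
    rw [hN, Subgroup.coe_inf]
    exact hK.inter (C_closed none)
  have hNn : N.Normal := by
    have h1 : Subgroup.normalizer (N : Set G) = ⊤ := by
      refine dense (normalizer_closed hNc) ?_ (j := none) ?_
      · intro h hh
        rw [Subgroup.mem_normalizer_iff]
        intro n
        have hhK := hH hh
        constructor
        · intro hn
          exact ⟨K.mul_mem (K.mul_mem hhK hn.1) (K.inv_mem hhK),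
            (C_normal none).conj_mem n hn.2 h⟩
        · intro hn
          have e : n = h⁻¹ * (h * n * h⁻¹) * h⁻¹⁻¹ := by group
          rw [e]
          exact ⟨K.mul_mem (K.mul_mem (K.inv_mem hhK) hn.1) (K.inv_mem (K.inv_mem hhK)),
            (C_normal none).conj_mem _ hn.2 h⁻¹⟩
      · intro m hm
        have hcomm : ∀ n : G, n ∈ C none → m * n * m⁻¹ = n := by
          intro n hn
          refine Subtype.ext (funext fun j => ?_)
          change (m : Pl → S) j * (n : Pl → S) j * ((m : Pl → S) j)⁻¹ = (n : Pl → S) j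
          by_cases hj : j = none
          · subst hj
            rw [show (n : Pl → S) none = 1 from hn]
            simp
          · rw [hm j hj]
            simp
        rw [Subgroup.mem_normalizer_iff]
        intro n
        constructor
        · intro hn
          change m * n * m⁻¹ ∈ N
          rw [hcomm n hn.2]
          exact hn
        · intro hn
          have h2 : n ∈ C none := by
            have h3 := (C_normal none).conj_mem _ hn.2 m⁻¹
            have e : m⁻¹ * (m * n * m⁻¹) * m⁻¹⁻¹ = n := by group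
            rwa [e] at h3
          have h3 : m * n * m⁻¹ ∈ N := hn
          rwa [hcomm n h2] at h3
    exact Subgroup.normalizer_eq_top_iff.1 h1
  have hk'N : k' ∈ N := ⟨hk'K, hk'C⟩
  obtain ⟨b, hb⟩ := exists_noncomm hi
  set m : G := single i b with hm
  have hmM : m ∈ M i := single_mem i b
  have hcN : k' * m * k'⁻¹ * m⁻¹ ∈ N := by
    have e : k' * m * k'⁻¹ * m⁻¹ = k' * (m * k'⁻¹ * m⁻¹) := by group
    rw [e]
    exact mul_mem hk'N (hNn.conj_mem _ (inv_mem hk'N) m)
  have hcM : k' * m * k'⁻¹ * m⁻¹ ∈ M i :=
    mul_mem ((M_normal i).conj_mem _ hmM k') (inv_mem hmM)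
  have hne' : N ⊓ M i ≠ ⊥ := by
    intro h0
    have h1 : k' * m * k'⁻¹ * m⁻¹ ∈ N ⊓ M i := ⟨hcN, hcM⟩
    rw [h0, Subgroup.mem_bot] at h1
    apply hb
    have h2 : ((k' * m * k'⁻¹ * m⁻¹ : G) : Pl → S) i = 1 := by rw [h1]; rfl
    change (k' : Pl → S) i * (m : Pl → S) i * ((k' : Pl → S) i)⁻¹ * ((m : Pl → S) i)⁻¹ = 1 at h2
    rw [hm, single_self] at h2
    exact h2
  have hMN : N ⊓ M i = M i := M_min inferInstance inf_le_right hne'
  have hMK : M i ≤ K := by
    rw [← hMN]
    exact inf_le_left.trans inf_le_left
  exact dense hK hH hMK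

theorem faithful {x : G} (hx : ∀ g : G, g⁻¹ * x * g ∈ H) : x = 1 := by
  refine Subtype.ext (funext fun i => ?_)
  change (x : Pl → S) i = 1
  by_contra hne
  obtain ⟨b, hb⟩ := exists_noncomm hne
  set m : G := single i b with hm
  have h1 : x ∈ H := by simpa using hx 1
  have h2 : m * x⁻¹ * m⁻¹ ∈ H := by
    have h3 := inv_mem (hx m⁻¹)
    have e : (m⁻¹⁻¹ * x * m⁻¹)⁻¹ = m * x⁻¹ * m⁻¹ := by group
    rwa [e] at h3
  have h3 : x * m * x⁻¹ * m⁻¹ ∈ H := by
    have e : x * m * x⁻¹ * m⁻¹ = x * (m * x⁻¹ * m⁻¹) := by group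
    rw [e]
    exact mul_mem h1 h2
  have h4 : x * m * x⁻¹ * m⁻¹ ∈ M i :=
    mul_mem ((M_normal i).conj_mem _ (single_mem i b) x) (inv_mem (single_mem i b))
  obtain ⟨j, hj⟩ := exists_ne i
  apply hb
  have h5 := h3 i j
  rw [h4 j hj] at h5
  change (x : Pl → S) i * (m : Pl → S) i * ((x : Pl → S) i)⁻¹ * ((m : Pl → S) i)⁻¹ = 1 at h5
  rw [hm, single_self] at h5
  exact h5

theorem M_ne_bot (i : Pl) : M i ≠ ⊥ := by
  intro h
  obtain ⟨s, hs⟩ := exists_ne (1 : S)
  have h1 := single_mem i s
  rw [h, Subgroup.mem_bot] at h1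
  apply hs
  have h2 : (single i s : Pl → S) i = 1 := by rw [h1]; rfl
  rwa [single_self] at h2

theorem H_ne_top : H ≠ ⊤ := by
  intro h
  obtain ⟨s, hs⟩ := exists_ne (1 : S)
  obtain ⟨j, hj⟩ := exists_ne (none : Pl)
  have h1 : single none s ∈ H := by rw [h]; exact Subgroup.mem_top _
  have h2 := h1 none j
  rw [single_self, single_ne hj] at h2
  exact hs h2

theorem M_inj : Function.Injective M := by
  intro i j h
  by_contra hne
  obtain ⟨s, hs⟩ := exists_ne (1 : S)
  have h1 : single i s ∈ M j := h ▸ single_mem i s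
  have h2 := h1 i hne
  rw [single_self] at h2
  exact hs h2

end Q97.Cos
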