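import Pool.Agent.Q97.Cos.Grp

namespace Q97.Cos

open Pointwise Topology

/-- the group of the families of elements of `PSL(2, ℚ)` indexed by the places of `ℚ` which are
constant outside a finite set -/
def G : Subgroup (Pl → S) where
  carrier := {g | ∃ s, {i | g i ≠ s}.Finite}
  one_mem' := ⟨1, by simp⟩
  mul_mem' := by
    rintro g h ⟨s, hs⟩ ⟨t, ht⟩
    refine ⟨s * t, (hs.union ht).subset ?_⟩
    intro i hi
    by_contra hcon
    simp only [Set.mem_union, Set.mem_setOf_eq, not_or, not_not] at hcon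
    apply hi
    rw [Pi.mul_apply, hcon.1, hcon.2]
  inv_mem' := by
    rintro g ⟨s, hs⟩
    refine ⟨s⁻¹, hs.subset ?_⟩
    intro i hi h
    apply hi
    rw [Pi.inv_apply, h]

def U (N : ℕ) : Set G := {g | ∀ i, (g : Pl → S) i ∈ W N i}

theorem U_mono {N M : ℕ} (hd : N ∣ M) (hM : M ≠ 0) : U M ⊆ U N :=
  fun _ h i => W_mono hd hM (h i)

theorem conj_G (x : G) : ∃ D : ℕ, D ≠ 0 ∧ ∀ (N : ℕ) (g : G), N ≠ 0 →
    g ∈ U (D * N) → x * g * x⁻¹ ∈ U N := by
  obtain ⟨s, hs⟩ := x.2
  choose D hD hq using W_conj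
  refine ⟨D s * ∏ i ∈ hs.toFinset, D ((x : Pl → S) i), mul_ne_zero (hD s)
    (Finset.prod_ne_zero_iff.2 fun i _ => hD _), fun N g hN hg i => ?_⟩
  change (x : Pl → S) i * (g : Pl → S) i * ((x : Pl → S) i)⁻¹ ∈ W N i
  refine hq _ N i _ hN (W_mono (Nat.mul_dvd_mul_right ?_ N) ?_ (hg i))
  · by_cases h : (x : Pl → S) i = s
    · rw [h]; exact dvd_mul_right _ _
    · exact (Finset.dvd_prod_of_mem (fun i => D ((x : Pl → S) i))
        (hs.mem_toFinset.2 h)).trans (dvd_mul_left _ _)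
  · exact mul_ne_zero (mul_ne_zero (hD s) (Finset.prod_ne_zero_iff.2 fun i _ => hD _)) hN

instance basis : GroupFilterBasis G where
  sets := {V | ∃ N : ℕ, N ≠ 0 ∧ V = U N}
  nonempty := ⟨U 1, 1, one_ne_zero, rfl⟩
  inter_sets := by
    rintro _ _ ⟨N, hN, rfl⟩ ⟨M, hM, rfl⟩
    exact ⟨U (N * M), ⟨N * M, mul_ne_zero hN hM, rfl⟩, Set.subset_inter
      (U_mono (dvd_mul_right _ _) (mul_ne_zero hN hM))
      (U_mono (dvd_mul_left _ _) (mul_ne_zero hN hM))⟩
  one' := by
    rintro _ ⟨N, hN, rfl⟩ i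
    exact W_one N i
  mul' := by
    rintro _ ⟨N, hN, rfl⟩
    refine ⟨U (4 * N), ⟨4 * N, by positivity, rfl⟩, ?_⟩
    rintro _ ⟨g, hg, h, hh, rfl⟩ i
    exact W_mul hN (hg i) (hh i)
  inv' := by
    rintro _ ⟨N, hN, rfl⟩
    exact ⟨U N, ⟨N, hN, rfl⟩, fun g hg i => W_inv (hg i)⟩
  conj' := by
    rintro x _ ⟨N, hN, rfl⟩
    obtain ⟨D, hD, h⟩ := conj_G x
    exact ⟨U (D * N), ⟨D * N, mul_ne_zero hD hN, rfl⟩, fun g hg => h N g hN hg⟩

instance top : TopologicalSpace G := basis.topology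

instance : IsTopologicalGroup G := basis.isTopologicalGroup

instance : T2Space G := by
  rw [basis.t2Space_iff_sInter_subset rfl]
  intro g hg
  have h : ∀ N : ℕ, N ≠ 0 → g ∈ U N := fun N hN => hg (U N) ⟨N, hN, rfl⟩
  refine Subtype.ext (funext fun i => ?_)
  exact W_haus fun N hN => h N hN i

/-- approximation -/
theorem mem_closure_iff' (A : Set G) (x : G) :
    x ∈ closure A ↔ ∀ N : ℕ, N ≠ 0 → ∃ a ∈ A, x⁻¹ * a ∈ U N := by
  rw [mem_closure_iff_nhds_basis (basis.nhds_hasBasis x)]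
  constructor
  · intro h N hN
    obtain ⟨a, ha, y, hy, e⟩ := h (i := U N) ⟨N, hN, rfl⟩
    refine ⟨a, ha, ?_⟩
    have : x⁻¹ * a = y := by rw [← e]; simp
    rw [this]; exact hy
  · rintro h _ ⟨N, hN, rfl⟩
    obtain ⟨a, ha, hy⟩ := h N hN
    exact ⟨a, ha, x⁻¹ * a, hy, by simp⟩

/-- the diagonal subgroup -/
def H : Subgroup G where
  carrier := {g | ∀ i j, (g : Pl → S) i = (g : Pl → S) j}
  one_mem' := fun _ _ => rfl
  mul_mem' := fun {g h} hg hh i j => by
    change (g : Pl → S) i * (h : Pl → S) i = (g : Pl → S) j * (h : Pl → S) j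
    rw [hg i j, hh i j]
  inv_mem' := fun {g} hg i j => by
    change ((g : Pl → S) i)⁻¹ = ((g : Pl → S) j)⁻¹
    rw [hg i j]

theorem H_disc {h : G} (hh : h ∈ H) (hU : h ∈ U 1) : h = 1 := by
  refine Subtype.ext (funext fun i => ?_)
  change (h : Pl → S) i = 1
  apply W_disc
  intro j
  rw [hh i j]
  exact hU j

theorem H_closed : IsClosed (H : Set G) := by
  rw [← closure_subset_iff_isClosed]
  intro g hg
  rw [mem_closure_iff'] at hg
  obtain ⟨h₀, hh₀, hU₀⟩ := hg 4 (by norm_num)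
  have key : ∀ N : ℕ, N ≠ 0 → g⁻¹ * h₀ ∈ U N := by
    intro N hN
    obtain ⟨h, hh, hU⟩ := hg (4 * N) (by positivity)
    have h4 : g⁻¹ * h ∈ U (4 * 1) := U_mono (by rw [mul_one]; exact dvd_mul_right _ _)
      (by positivity) hU
    have e : h₀⁻¹ * h = (g⁻¹ * h₀)⁻¹ * (g⁻¹ * h) := by group
    have h1 : h₀⁻¹ * h ∈ U 1 := by
      rw [e]
      intro i
      exact W_mul one_ne_zero (W_inv (hU₀ i)) (h4 i)
    have h2 : h₀⁻¹ * h = 1 := H_disc (mul_mem (inv_mem hh₀) hh) h1
    have h3 : h₀ = h := by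
      rw [inv_mul_eq_one] at h2
      exact h2
    rw [h3]
    exact U_mono (dvd_mul_left _ _) (by positivity) hU
  have : g = h₀ := by
    refine Subtype.ext (funext fun i => ?_)
    have h1 : ((g : Pl → S) i)⁻¹ * (h₀ : Pl → S) i = 1 := W_haus fun N hN => key N hN i
    rw [inv_mul_eq_one] at h1
    exact h1
  rw [this]
  exact hh₀

/-- the element `s` at the place `i` -/
noncomputable def single (i : Pl) (s : S) : G :=
  ⟨Pi.mulSingle i s, 1, (Set.finite_singleton i).subset fun j hj => by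
    by_contra hne
    exact hj (Pi.mulSingle_eq_of_ne hne _)⟩

/-- the factor at the place `i` -/
def M (i : Pl) : Subgroup G where
  carrier := {g | ∀ j, j ≠ i → (g : Pl → S) j = 1}
  one_mem' := fun _ _ => rfl
  mul_mem' := fun {g h} hg hh j hj => by
    change (g : Pl → S) j * (h : Pl → S) j = 1
    rw [hg j hj, hh j hj, one_mul]
  inv_mem' := fun {g} hg j hj => by
    change ((g : Pl → S) j)⁻¹ = 1
    rw [hg j hj, inv_one]

/-- the families with the value `1` at `i` -/
def C (i : Pl) : Subgroup G where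
  carrier := {g | (g : Pl → S) i = 1}
  one_mem' := rfl
  mul_mem' := fun {g h} hg hh => by
    change (g : Pl → S) i * (h : Pl → S) i = 1
    rw [show (g : Pl → S) i = 1 from hg, show (h : Pl → S) i = 1 from hh, one_mul]
  inv_mem' := fun {g} hg => by
    change ((g : Pl → S) i)⁻¹ = 1
    rw [show (g : Pl → S) i = 1 from hg, inv_one]

theorem C_closed (i : Pl) : IsClosed (C i : Set G) := by
  rw [← closure_subset_iff_isClosed]
  intro g hg
  rw [mem_closure_iff'] at hg
  change (g : Pl → S) i = 1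
  have : ((g : Pl → S) i)⁻¹ = 1 := by
    refine W_haus (i := i) fun N hN => ?_
    obtain ⟨a, ha, hU⟩ := hg N hN
    have h1 := hU i
    change ((g : Pl → S) i)⁻¹ * (a : Pl → S) i ∈ W N i at h1
    rw [show (a : Pl → S) i = 1 from ha, mul_one] at h1
    exact h1
  exact inv_eq_one.1 this

theorem M_eq (i : Pl) : (M i : Set G) = ⋂ j ∈ {j : Pl | j ≠ i}, (C j : Set G) := by
  ext g
  simp only [Set.mem_iInter]
  exact Iff.rfl

theorem M_closed (i : Pl) : IsClosed (M i : Set G) := by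
  rw [M_eq]
  exact isClosed_biInter fun j _ => C_closed j

instance M_normal (i : Pl) : (M i).Normal where
  conj_mem := fun g hg x j hj => by
    change (x : Pl → S) j * (g : Pl → S) j * ((x : Pl → S) j)⁻¹ = 1
    rw [hg j hj]
    simp

instance C_normal (i : Pl) : (C i).Normal where
  conj_mem := fun g hg x => by
    change (x : Pl → S) i * (g : Pl → S) i * ((x : Pl → S) i)⁻¹ = 1
    rw [show (g : Pl → S) i = 1 from hg]
    simp

theorem single_mem (i : Pl) (s : S) : single i s ∈ M i := fun _ hj => Pi.mulSingle_eq_of_ne hj _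

theorem single_self (i : Pl) (s : S) : (single i s : Pl → S) i = s := Pi.mulSingle_eq_same _ _

theorem single_ne {i j : Pl} (h : j ≠ i) (s : S) : (single i s : Pl → S) j = 1 :=
  Pi.mulSingle_eq_of_ne h _

theorem eq_single {i : Pl} {g : G} (hg : g ∈ M i) : g = single i ((g : Pl → S) i) := by
  refine Subtype.ext (funext fun j => ?_)
  by_cases h : j = i
  · subst h; rw [single_self]
  · rw [single_ne h, hg j h]

/-- the evaluation at a place -/
def ev (i : Pl) : G →* S := (Pi.evalMonoidHom (fun _ : Pl => S) i).comp G.subtype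

/-- a nontrivial normal subgroup of the group in a factor is the factor -/
theorem M_min {i : Pl} {N : Subgroup G} (hN : N.Normal) (hle : N ≤ M i) (hne : N ≠ ⊥) :
    N = M i := by
  have hn : (N.map (ev i)).Normal := hN.map (ev i) (fun s => ⟨single i s, single_self i s⟩)
  rcases IsSimpleGroup.eq_bot_or_eq_top_of_normal (N.map (ev i)) hn with h | h
  · exfalso
    apply hne
    rw [eq_bot_iff]
    intro g hg
    have h1 : ev i g ∈ N.map (ev i) := ⟨g, hg, rfl⟩
    rw [h, Subgroup.mem_bot] at h1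
    rw [Subgroup.mem_bot, eq_single (hle hg)]
    have h2 : (g : Pl → S) i = 1 := h1
    rw [h2]
    exact Subtype.ext (Pi.mulSingle_one i)
  · refine le_antisymm hle fun g hg => ?_
    have h1 : (g : Pl → S) i ∈ N.map (ev i) := by rw [h]; exact Subgroup.mem_top _
    obtain ⟨n, hn, e⟩ := h1
    have h2 : n = g := by
      rw [eq_single (hle hn), eq_single hg]
      congr 1
    rw [← h2]
    exact hn

end Q97.Cos
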